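import Pool.Agent.Lib.MP_70c3c6_co.AF.Sharp

/-!
# MP_70c3c6_co: double points of supersolvable line arrangements over arbitrary fields

A line is given by the coefficient vector `a` of its equation, `p` lies on it iff `a.p = 0`.  The
filter over `A ×ˢ A` consists of the ordered pairs of lines that meet in a double point, so its
cardinality is `2 t_2`; `m` is the number of lines through the modular point `p`.
-/

set_option autoImplicit false
open Classical

namespace Pool.Agent.Results.MP_70c3c6_co.AnyField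

/-- `A` is an arrangement of distinct lines, not a pencil. -/
def Arr {K : Type} [Field K] (A : Finset (Fin 3 → K)) : Prop :=
  (∀ a ∈ A, a ≠ 0) ∧
  (∀ a ∈ A, ∀ b ∈ A, a ≠ b → LinearIndependent K ![a, b]) ∧
  (∃ a ∈ A, ∃ b ∈ A, ∃ c ∈ A, LinearIndependent K ![a, b, c])

/-- `p` is a modular point of `A`, and `m` lines of `A` pass through it. -/
def Modular {K : Type} [Field K] (A : Finset (Fin 3 → K)) (p : Fin 3 → K) (m : ℕ) : Prop :=
  p ≠ 0 ∧
  (∃ a ∈ A, ∃ b ∈ A, a ≠ b ∧ dotProduct a p = 0 ∧ dotProduct b p = 0) ∧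
  (∀ a ∈ A, ∀ b ∈ A, a ≠ b → ¬ (dotProduct a p = 0 ∧ dotProduct b p = 0) →
    ∃ c ∈ A, dotProduct c p = 0 ∧ ¬ LinearIndependent K ![a, b, c]) ∧
  (A.filter fun c => dotProduct c p = 0).card = m

/-- `a` and `c` meet in a double point of `A`. -/
def Double {K : Type} [Field K] (A : Finset (Fin 3 → K)) (a c : Fin 3 → K) : Prop :=
  a ≠ c ∧ ∀ b ∈ A, b ≠ a → b ≠ c → LinearIndependent K ![a, c, b]

/-- Let `A` be a supersolvable arrangement of `s` lines over an arbitrary field `K`, not a pencil,
with a modular point `p` of multiplicity `m`, such that `m` is not `1` in `K` (in characteristic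
zero this always holds, in characteristic `ℓ` it says that `ℓ` does not divide `m - 1`).  Then every
line of `A` that does not pass through `p` contains a double point, and `t_2 ≥ max (s - m) m ≥ s/2`.
The condition on `m` is exact: for every prime `ℓ` and every `m > 1` with `ℓ ∣ m - 1` there is such
an arrangement over a field of characteristic `ℓ`, with a modular point `p` of multiplicity `m` and a
line off `p` without double point.  Over every finite field `K` with `q` elements there is such an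
arrangement with `m = q + 1` and `t_2 = 0`. -/
theorem result :
    (∀ (K : Type) [Field K] (A : Finset (Fin 3 → K)) (p : Fin 3 → K) (m : ℕ),
      Arr A → Modular A p m → (m : K) ≠ 1 →
        (∀ a ∈ A, dotProduct a p ≠ 0 → ∃ c ∈ A, Double A a c) ∧
        2 * max (A.card - m) m ≤ ((A ×ˢ A).filter (fun x => Double A x.1 x.2)).card) ∧
    (∀ l m : ℕ, l.Prime → 1 < m → l ∣ m - 1 →
      ∃ (K : Type) (_ : Field K), CharP K l ∧
        ∃ (A : Finset (Fin 3 → K)) (p : Fin 3 → K), Arr A ∧ Modular A p m ∧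
          ∃ a ∈ A, dotProduct a p ≠ 0 ∧ ∀ c ∈ A, ¬ Double A a c) ∧
    (∀ (K : Type) [Field K] [Fintype K], ∃ (A : Finset (Fin 3 → K)) (p : Fin 3 → K),
      Arr A ∧ Modular A p (Fintype.card K + 1) ∧ ∀ a ∈ A, ∀ c ∈ A, ¬ Double A a c) := by
  refine ⟨?_, ?_, ?_⟩
  · intro K _ A p m hA hM hm1
    obtain ⟨h0, h2, h3⟩ := hA
    obtain ⟨hp, ⟨c1, hc1, c2, hc2, hc12, hp1, hp2'⟩, hm, hmc⟩ := hM
    subst hmc
    constructor
    · intro a ha hap
      obtain ⟨c, hc, hcp, h⟩ := MPss.AF.exists_double h0 h2 hc1 hc2 hc12 hp1 hp2' hm hm1 ha hap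
      refine ⟨c, hc, fun e => hap (e ▸ hcp), fun b hb hba hbc => ?_⟩
      by_cases hbp : dotProduct b p = 0
      · exact MPss.AF.li_of_through h2 hap hc hcp hb hbp (Ne.symm hbc)
      · exact h b hb hbp hba
    · have h := MPss.AF.main A h0 h2 h3 p hp ⟨c1, hc1, c2, hc2, hc12, hp1, hp2'⟩ hm hm1
      have htot : (A.filter fun c => dotProduct c p = 0).card +
          (A.filter fun c => dotProduct c p ≠ 0).card = A.card :=
        Finset.card_filter_add_card_filter_not (s := A) (fun c => dotProduct c p = 0)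
      have e : A.card - (A.filter fun c => dotProduct c p = 0).card =
          (A.filter fun c => dotProduct c p ≠ 0).card := by omega
      rw [e]
      refine h.trans (Finset.card_le_card ?_)
      intro x hx
      rw [Finset.mem_filter] at hx ⊢
      exact hx
  · intro l m hl hm hd
    obtain ⟨j, hj⟩ := hd
    have hj1 : 1 ≤ j := by
      rcases Nat.eq_zero_or_pos j with h | h
      · subst h
        omega
      · exact h
    obtain ⟨K, hK, hch, A, h0, h2, h3, p, hp, hp2, hmod, hc, a, ha, hap, ht⟩ :=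
      MPss.AF.sharp l j hl hj1
    refine ⟨K, hK, hch, A, p, ⟨h0, h2, h3⟩, ⟨hp, hp2, hmod, ?_⟩, a, ha, hap, ?_⟩
    · rw [hc, Nat.mul_comm, ← hj]
      omega
    · rintro c hc' ⟨hne, h⟩
      obtain ⟨b, hb, hba, hbc, hli⟩ := ht c hc' (Ne.symm hne)
      exact hli (h b hb hba hbc)
  · intro K _ _
    obtain ⟨A, h0, h2, h3, p, hp, hp2, hm, hc, ht⟩ := MPss.AF.plane K
    refine ⟨A, p, ⟨h0, h2, h3⟩, ⟨hp, hp2, hm, hc⟩, ?_⟩
    rintro a ha b hb ⟨hne, h⟩
    obtain ⟨c, hc', hca, hcb, hli⟩ := ht a ha b hb hne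
    exact hli (h c hc' hca hcb)

end Pool.Agent.Results.MP_70c3c6_co.AnyField
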