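import Pool.Agent.Lib.MP_70c3c6_co.FG.INT
import Pool.Agent.Lib.MP_70c3c6_co.FG.HPO
import Pool.Agent.Lib.MP_70c3c6_co.FG.TOP
import Pool.Agent.Lib.MP_70c3c6_co.FG.TAY
import Pool.Agent.Lib.MP_70c3c6_co.FG.CRX
import Pool.Agent.Lib.MP_70c3c6_co.FG.CLF
import Pool.Agent.Lib.MP_70c3c6_co.FG.KEY
import Pool.Agent.Lib.MP_70c3c6_co.FG.LAM
import Pool.Agent.Lib.MP_70c3c6_co.FG.ONE
import Pool.Agent.Lib.MP_70c3c6_co.FG.RIC
import Pool.Agent.Lib.MP_70c3c6_co.FG.CEN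
import Pool.Agent.Lib.MP_70c3c6_co.FG.TWR
import Pool.Agent.Lib.MP_70c3c6_co.FG.TWC
import Pool.Agent.Lib.MP_70c3c6_co.FG.BIJ
import Pool.Agent.Lib.MP_70c3c6_co.FG.SFG
import Pool.Agent.Lib.MP_70c3c6_co.FG.CNG
import Pool.Agent.Lib.MP_70c3c6_co.FG.CRG
import Pool.Agent.Lib.MP_70c3c6_co.FG.FWG
import Pool.Agent.Lib.MP_70c3c6_co.FG.LOW
import Pool.Agent.Lib.MP_70c3c6_co.FG.OCG
import Pool.Agent.Lib.MP_70c3c6_co.FG.PNT
import Pool.Agent.Lib.MP_70c3c6_co.FG.MDG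
import Pool.Agent.Lib.MP_70c3c6_co.FG.DBG
import Pool.Agent.Lib.MP_70c3c6_co.FG.BKG
import Pool.Agent.Lib.MP_70c3c6_co.FG.BKP
import Pool.Agent.Lib.MP_70c3c6_co.EQ.PRD
import Pool.Agent.Lib.MP_70c3c6_co.EQ.SLP
import Pool.Agent.Lib.MP_70c3c6_co.EQ.CNC
import Pool.Agent.Lib.MP_70c3c6_co.EQ.HYP
import Pool.Agent.Lib.MP_70c3c6_co.EQ.PAR
import Pool.Agent.Lib.MP_70c3c6_co.EQ.ANA
import Pool.Agent.Lib.MP_70c3c6_co.EQ.CNT
import Pool.Agent.Lib.MP_70c3c6_co.EQ.CRD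
import Pool.Agent.Lib.MP_70c3c6_co.EQ.FWD
import Pool.Agent.Lib.MP_70c3c6_co.EQ.BCK

/-!
# MP_70c3c6_co: the complex line arrangements with a modular point and the least number of double
points

A line is given by the coefficient vector `a` of its equation, `p` lies on it iff `a.p = 0`.  The
first filter counts the ordered pairs of lines that meet in a double point, that is `2 t_2`, the
second one the lines that do not contain `p`.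
-/

set_option autoImplicit false
open Classical

namespace Pool.Agent.Results.MP_70c3c6_co.ExtremalArrangements

/-- An arrangement `A` of complex projective lines, not a pencil, has a modular point `p` such that
`t_2` equals the number of the lines off `p` iff a linear change of coordinates takes it either to
the `2n` lines `z x + y / z + t = 0`, `x - z y = 0`, `z ^ n = 1` (the sides and the
symmetry axes of a regular `n`-gon), `n` at least 3, or to the `3r + 2` lines `x = 0`, `y = 0`,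
`x = z y`, `t = z x`, `t = z y`, `z ^ r = 1`, `r` at least 3. -/
theorem result :
    ∀ A : Finset (Fin 3 → ℂ),
      (∀ a ∈ A, a ≠ 0) →
      (∀ a ∈ A, ∀ b ∈ A, a ≠ b → LinearIndependent ℂ ![a, b]) →
      (∃ a ∈ A, ∃ b ∈ A, ∃ c ∈ A, LinearIndependent ℂ ![a, b, c]) →
      ((∃ p : Fin 3 → ℂ, p ≠ 0 ∧
        (∃ a ∈ A, ∃ b ∈ A, a ≠ b ∧ dotProduct a p = 0 ∧ dotProduct b p = 0) ∧
        (∀ a ∈ A, ∀ b ∈ A, a ≠ b → ¬ (dotProduct a p = 0 ∧ dotProduct b p = 0) →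
          ∃ c ∈ A, dotProduct c p = 0 ∧ ¬ LinearIndependent ℂ ![a, b, c]) ∧
        ((A ×ˢ A).filter (fun x => x.1 ≠ x.2 ∧
          ∀ c ∈ A, c ≠ x.1 → c ≠ x.2 → LinearIndependent ℂ ![x.1, x.2, c])).card =
          2 * (A.filter fun c => dotProduct c p ≠ 0).card) ↔
      ((∃ n : ℕ, 3 ≤ n ∧ A.card = 2 * n ∧
        ∃ M : (Fin 3 → ℂ) ≃ₗ[ℂ] (Fin 3 → ℂ), ∀ a ∈ A, ∃ ζ : ℂ, ζ ^ n = 1 ∧
          ∃ c : ℂ, c ≠ 0 ∧ (M a = c • ![ζ, ζ⁻¹, 1] ∨ M a = c • ![1, -ζ, 0])) ∨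
      (∃ r : ℕ, 3 ≤ r ∧ A.card = 3 * r + 2 ∧
        ∃ M : (Fin 3 → ℂ) ≃ₗ[ℂ] (Fin 3 → ℂ), ∀ a ∈ A, ∃ ζ : ℂ, ζ ^ r = 1 ∧
          ∃ c : ℂ, c ≠ 0 ∧ (M a = c • ![1, 0, 0] ∨ M a = c • ![0, 1, 0] ∨
            M a = c • ![1, -ζ, 0] ∨ M a = c • ![-ζ, 0, 1] ∨ M a = c • ![0, -ζ, 1])))) := by
  intro A h0 h2 h3
  have hA : Lib.MP_70c3c6_co.EQ.Arr A := ⟨h0, h2, h3⟩
  have hFWD := Lib.MP_70c3c6_co.EQ.specFWD Lib.MP_70c3c6_co.EQ.specCNT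
    Lib.MP_70c3c6_co.EQ.specCRD
      (Lib.MP_70c3c6_co.EQ.specANA Lib.MP_70c3c6_co.EQ.specPRD
        (Lib.MP_70c3c6_co.EQ.specSLP Lib.MP_70c3c6_co.EQ.specPRD) Lib.MP_70c3c6_co.EQ.specCON
        (Lib.MP_70c3c6_co.EQ.specHYP Lib.MP_70c3c6_co.EQ.specPRD)
        (Lib.MP_70c3c6_co.EQ.specPAR Lib.MP_70c3c6_co.EQ.specPRD))
  have hHPO := Lib.MP_70c3c6_co.FG.specHPO Lib.MP_70c3c6_co.FG.specINT
  have hCRX := Lib.MP_70c3c6_co.FG.specCRX Lib.MP_70c3c6_co.FG.specTAY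
  have hKEY := Lib.MP_70c3c6_co.FG.specKEY hHPO Lib.MP_70c3c6_co.FG.specTOP hCRX
    Lib.MP_70c3c6_co.FG.specCLF
  have hTWC := Lib.MP_70c3c6_co.FG.specTWC (Lib.MP_70c3c6_co.FG.specLAM hKEY)
    (Lib.MP_70c3c6_co.FG.specONE hKEY) Lib.MP_70c3c6_co.FG.specRIC
    Lib.MP_70c3c6_co.FG.specCEN Lib.MP_70c3c6_co.FG.specTWR
  have hSFG := Lib.MP_70c3c6_co.FG.specSFG hTWC Lib.MP_70c3c6_co.FG.specBIJ
  have hFWG := Lib.MP_70c3c6_co.FG.specFWG Lib.MP_70c3c6_co.FG.specCRG hSFG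
  have hOCG := Lib.MP_70c3c6_co.FG.specOCG
  have hMDG := Lib.MP_70c3c6_co.FG.specMDG hOCG
  have hDBG := Lib.MP_70c3c6_co.FG.specDBG hOCG hMDG
  have hBKG := Lib.MP_70c3c6_co.FG.specBKG Lib.MP_70c3c6_co.FG.specPNT hMDG hDBG
    Lib.MP_70c3c6_co.FG.specLOW
  have hBKP := Lib.MP_70c3c6_co.FG.specBKP Lib.MP_70c3c6_co.FG.specPNT
    Lib.MP_70c3c6_co.FG.specLOW Lib.MP_70c3c6_co.EQ.specBCK
  constructor
  · rintro ⟨p, hp, hp2, hm, h⟩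
    have hM : Lib.MP_70c3c6_co.EQ.Mod A p := ⟨hp, hp2, hm⟩
    rcases Lib.MP_70c3c6_co.FG.specCNG A p hA hM h with h1 | ⟨t, ht⟩
    · exact Or.inl (hFWD A p hA hM h1)
    · exact Or.inr (hFWG A p t hA hM ht)
  · rintro (h | h)
    · obtain ⟨p, hM, h1⟩ := hBKP A hA h
      exact ⟨p, hM.nz, hM.two, hM.m, h1⟩
    · obtain ⟨p, hM, h1⟩ := hBKG A hA h
      exact ⟨p, hM.nz, hM.two, hM.m, h1⟩

end Pool.Agent.Results.MP_70c3c6_co.ExtremalArrangements
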