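import Pool.Agent.Lib.MP_70c3c6_co.GP.Main2
import Pool.Agent.Lib.MP_70c3c6_co.EQ.BCK

/-!
# MP_70c3c6_co: the gap above s/2 for the double points of supersolvable line arrangements

A line is given by the coefficient vector `a` of its equation, `p` lies on it iff `a.p = 0`.  The
filter over `A x A` counts the ordered pairs of lines that meet in a double point, that is `2 t_2`,
the other filters the lines through `p`, the lines off `p`, and the lines off `p` that contain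
neither of the points `q`, `q'`.
-/

set_option autoImplicit false
open Classical

namespace Pool.Agent.Results.MP_70c3c6_co.GapTheorem

/-- Let `A` be an arrangement of `s` complex projective lines, not a pencil, and `p` a modular point on
`m` of its lines.  Then `t_2 = s/2` iff a linear change of coordinates takes `A` to the lines
`z x + y / z + t = 0`, `x - z y = 0`, `z ^ n = 1`, for some `n` at least 3 (the `n` sides and the `n`
symmetry axes of a regular `n`-gon); otherwise `t_2` is at least `(1/2 + 1/14150) s`, more precisely: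
if `m` is at least `s/2`, then `t_2` is at least `(2/3) s`; if `3 ≤ m < s/2`, then `t_2` is at least
`(1 + 1/7075) (s - m)`, or at least `(2 s - 4)/3` and all but at most `t_2 - (s - m)` of the lines off
`p` pass through one of two points. -/
theorem result :
    ∀ A : Finset (Fin 3 → ℂ),
      (∀ a ∈ A, a ≠ 0) →
      (∀ a ∈ A, ∀ b ∈ A, a ≠ b → LinearIndependent ℂ ![a, b]) →
      (∃ a ∈ A, ∃ b ∈ A, ∃ c ∈ A, LinearIndependent ℂ ![a, b, c]) →
      ∀ p : Fin 3 → ℂ, p ≠ 0 →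
        (∃ a ∈ A, ∃ b ∈ A, a ≠ b ∧ dotProduct a p = 0 ∧ dotProduct b p = 0) →
        (∀ a ∈ A, ∀ b ∈ A, a ≠ b → ¬ (dotProduct a p = 0 ∧ dotProduct b p = 0) →
          ∃ c ∈ A, dotProduct c p = 0 ∧ ¬ LinearIndependent ℂ ![a, b, c]) →
      (((A ×ˢ A).filter (fun x => x.1 ≠ x.2 ∧
        ∀ c ∈ A, c ≠ x.1 → c ≠ x.2 → LinearIndependent ℂ ![x.1, x.2, c])).card = A.card ↔
      ∃ n : ℕ, 3 ≤ n ∧ A.card = 2 * n ∧
        ∃ M : (Fin 3 → ℂ) ≃ₗ[ℂ] (Fin 3 → ℂ), ∀ a ∈ A, ∃ ζ : ℂ, ζ ^ n = 1 ∧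
          ∃ c : ℂ, c ≠ 0 ∧ (M a = c • ![ζ, ζ⁻¹, 1] ∨ M a = c • ![1, -ζ, 0])) ∧
      (((A ×ˢ A).filter (fun x => x.1 ≠ x.2 ∧
        ∀ c ∈ A, c ≠ x.1 → c ≠ x.2 → LinearIndependent ℂ ![x.1, x.2, c])).card = A.card ∨
      (7076 * A.card ≤ 7075 * ((A ×ˢ A).filter (fun x => x.1 ≠ x.2 ∧
          ∀ c ∈ A, c ≠ x.1 → c ≠ x.2 → LinearIndependent ℂ ![x.1, x.2, c])).card ∧
        (A.card ≤ 2 * (A.filter fun c => dotProduct c p = 0).card →
          4 * A.card ≤ 3 * ((A ×ˢ A).filter (fun x => x.1 ≠ x.2 ∧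
            ∀ c ∈ A, c ≠ x.1 → c ≠ x.2 → LinearIndependent ℂ ![x.1, x.2, c])).card) ∧
        (3 ≤ (A.filter fun c => dotProduct c p = 0).card →
          2 * (A.filter fun c => dotProduct c p = 0).card < A.card →
          7076 * (2 * (A.filter fun c => dotProduct c p ≠ 0).card) ≤
            7075 * ((A ×ˢ A).filter (fun x => x.1 ≠ x.2 ∧
              ∀ c ∈ A, c ≠ x.1 → c ≠ x.2 → LinearIndependent ℂ ![x.1, x.2, c])).card ∨
          (4 * A.card ≤ 3 * ((A ×ˢ A).filter (fun x => x.1 ≠ x.2 ∧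
              ∀ c ∈ A, c ≠ x.1 → c ≠ x.2 → LinearIndependent ℂ ![x.1, x.2, c])).card + 8 ∧
            ∃ q q' : Fin 3 → ℂ, q ≠ 0 ∧ q' ≠ 0 ∧
              2 * ((A.filter fun c => dotProduct c p ≠ 0).filter fun a =>
                dotProduct a q ≠ 0 ∧ dotProduct a q' ≠ 0).card +
              2 * (A.filter fun c => dotProduct c p ≠ 0).card ≤
              ((A ×ˢ A).filter (fun x => x.1 ≠ x.2 ∧
                ∀ c ∈ A, c ≠ x.1 → c ≠ x.2 → LinearIndependent ℂ ![x.1, x.2, c])).card)))) := by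
  intro A h0 h2 h3 p hp hp2 hm
  have hA : Lib.MP_70c3c6_co.EQ.Arr A := ⟨h0, h2, h3⟩
  have hM : Lib.MP_70c3c6_co.EQ.Mod A p := ⟨hp, hp2, hm⟩
  obtain ⟨hFI4, hFI6, hFI2⟩ := Lib.MP_70c3c6_co.GP.mainGap2
  have hF := hFI4 A p hA hM
  have hback : Lib.MP_70c3c6_co.EQ.Std A → (Lib.MP_70c3c6_co.EQ.Fn A).card = A.card := fun h =>
    le_antisymm (Lib.MP_70c3c6_co.EQ.specBCK A hA h) (MPss.main A h0 h2 h3 p hp hp2 hm)
  have hpos := Lib.MP_70c3c6_co.GP.FI2M.card_three hA
  refine ⟨⟨fun h => ?_, hback⟩, ?_⟩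
  · rcases hF with hS | hF
    · exact hS
    · exfalso
      have h' : (Lib.MP_70c3c6_co.EQ.Fn A).card = A.card := h
      omega
  · by_cases hStd : Lib.MP_70c3c6_co.EQ.Std A
    · exact Or.inl (hback hStd)
    · exact Or.inr ⟨hF.resolve_left hStd, fun hhalf => (hFI2 A p hA hM hhalf).resolve_left hStd,
        fun h3m hlt => hFI6 A p hA hM h3m hlt⟩

end Pool.Agent.Results.MP_70c3c6_co.GapTheorem
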