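import Pool.Agent.Lib.MP_70c3c6_co.OD.TRP
import Pool.Agent.Lib.MP_70c3c6_co.OD.SLQ
import Pool.Agent.Lib.MP_70c3c6_co.OD.VEC
import Pool.Agent.Lib.MP_70c3c6_co.OD.REP
import Pool.Agent.Lib.MP_70c3c6_co.OD.AFF
import Pool.Agent.Lib.MP_70c3c6_co.OD.HES
import Pool.Agent.Lib.MP_70c3c6_co.OD.CNX
import Pool.Agent.Lib.MP_70c3c6_co.OD.FOR
import Pool.Agent.Lib.MP_70c3c6_co.OD.TRI
import Pool.Agent.Lib.MP_70c3c6_co.OD.NIN
import Pool.Agent.Lib.MP_70c3c6_co.OD.SIX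
import Pool.Agent.Lib.MP_70c3c6_co.OD.SFN
import Pool.Agent.Lib.MP_70c3c6_co.OD.CNS
import Pool.Agent.Lib.MP_70c3c6_co.OD.CRS
import Pool.Agent.Lib.MP_70c3c6_co.OD.FWS
import Pool.Agent.Lib.MP_70c3c6_co.OD.BKS

/-!
# MP_70c3c6_co: the complex supersolvable line arrangements with exactly (s+1)/2 double points

A line is given by the coefficient vector `a` of its equation, `p` lies on it iff `a.p = 0`.  The
filter counts the ordered pairs of lines that meet in a double point, that is `2 t_2`.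
-/

set_option autoImplicit false
open Classical

namespace Pool.Agent.Results.MP_70c3c6_co.OddCase

/-- A supersolvable arrangement `A` of `s` complex projective lines, not a pencil, has
`2 t_2 = s + 1` iff `s = 11` and a linear change of coordinates takes its lines to the eleven lines
`x = 0`, `y = 0`, `x = z y`, `t = z x`, `t = z y`, `z ^ 3 = 1`. -/
theorem result :
    ∀ A : Finset (Fin 3 → ℂ),
      (∀ a ∈ A, a ≠ 0) →
      (∀ a ∈ A, ∀ b ∈ A, a ≠ b → LinearIndependent ℂ ![a, b]) →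
      (∃ a ∈ A, ∃ b ∈ A, ∃ c ∈ A, LinearIndependent ℂ ![a, b, c]) →
      (∃ p : Fin 3 → ℂ, p ≠ 0 ∧
        (∃ a ∈ A, ∃ b ∈ A, a ≠ b ∧ dotProduct a p = 0 ∧ dotProduct b p = 0) ∧
        ∀ a ∈ A, ∀ b ∈ A, a ≠ b → ¬ (dotProduct a p = 0 ∧ dotProduct b p = 0) →
          ∃ c ∈ A, dotProduct c p = 0 ∧ ¬ LinearIndependent ℂ ![a, b, c]) →
      (((A ×ˢ A).filter (fun x => x.1 ≠ x.2 ∧
        ∀ c ∈ A, c ≠ x.1 → c ≠ x.2 → LinearIndependent ℂ ![x.1, x.2, c])).card = A.card + 1 ↔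
      A.card = 11 ∧
        ∃ M : (Fin 3 → ℂ) ≃ₗ[ℂ] (Fin 3 → ℂ), ∀ a ∈ A, ∃ ζ : ℂ, ζ ^ 3 = 1 ∧
          ∃ c : ℂ, c ≠ 0 ∧ (M a = c • ![1, 0, 0] ∨ M a = c • ![0, 1, 0] ∨
            M a = c • ![1, -ζ, 0] ∨ M a = c • ![-ζ, 0, 1] ∨ M a = c • ![0, -ζ, 1])) := by
  intro A h0 h2 h3 ⟨p, hp, hp2, hm⟩
  have hA : Lib.MP_70c3c6_co.EQ.Arr A := ⟨h0, h2, h3⟩
  have hM : Lib.MP_70c3c6_co.EQ.Mod A p := ⟨hp, hp2, hm⟩
  have hTRP := Lib.MP_70c3c6_co.OD.specTRP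
  have hSLQ := Lib.MP_70c3c6_co.OD.specSLQ hTRP
  have hVEC := Lib.MP_70c3c6_co.OD.specVEC hTRP hSLQ
  have hREP := Lib.MP_70c3c6_co.OD.specREP
  have hAFF := Lib.MP_70c3c6_co.OD.specAFF
  have hHES := Lib.MP_70c3c6_co.OD.specHES hREP hAFF
  have hCNX := Lib.MP_70c3c6_co.OD.specCNX hREP hAFF
  have hFOR := Lib.MP_70c3c6_co.OD.specFOR hHES hCNX
  have hTRI := Lib.MP_70c3c6_co.OD.specTRI hAFF hCNX
  have hNIN := Lib.MP_70c3c6_co.OD.specNIN hTRP hVEC hTRI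
  have hSIX := Lib.MP_70c3c6_co.OD.specSIX hTRP hVEC hFOR hNIN
  have hSFN := Lib.MP_70c3c6_co.OD.specSFN hTRP
  constructor
  · intro h
    exact Lib.MP_70c3c6_co.OD.specFWS Lib.MP_70c3c6_co.OD.specCNS Lib.MP_70c3c6_co.OD.specCRS
      hSIX hSFN A p hA hM h
  · intro h
    exact Lib.MP_70c3c6_co.OD.specBKS A p hA hM h

end Pool.Agent.Results.MP_70c3c6_co.OddCase
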